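import Pool.Agent.Y754.GD.Num

set_option autoImplicit false

/-!
# Uniform Littlewood pairs with badly approximable entries: full Hausdorff dimension

For all countable sets `Z` of badly approximable numbers and `A` of real numbers, the set of the
`ξ` such that all `ξ + a`, `a - ξ` (`a` in `A`) are badly approximable and form pairs with
`D > 0` with all `ζ` in `Z` has Hausdorff dimension one; every real number is the sum of two such
numbers.
-/

namespace Pool.Agent.Results.MP_294a04_nt.FullDimension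

open Pool.Agent.Y754.GD

/-- `√2` is badly approximable; for countable `Z` (badly approximable numbers) and `A` the set of
the `ξ` such that `ξ + a` and `a - ξ` are badly approximable and `D(ξ + a, ζ)`, `D(a - ξ, ζ)` are
positive for all `a` in `A`, `ζ` in `Z` has Hausdorff dimension one; every real `x` is the sum of
two badly approximable numbers with positive `D(·, ζ)` for all `ζ` in `Z`. -/
theorem result :
    BadlyApproximable (Real.sqrt 2) ∧
    (∀ Z A : Set ℝ, Z.Countable → A.Countable → (∀ ζ ∈ Z, BadlyApproximable ζ) →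
      dimH {ξ : ℝ | ∀ a ∈ A, BadlyApproximable (ξ + a) ∧ BadlyApproximable (a - ξ) ∧
        ∀ ζ ∈ Z, 0 < D (ξ + a) ζ ∧ 0 < D (a - ξ) ζ} = 1) ∧
    (∀ Z : Set ℝ, Z.Countable → (∀ ζ ∈ Z, BadlyApproximable ζ) → ∀ x : ℝ, ∃ ξ ξ' : ℝ,
      ξ + ξ' = x ∧ BadlyApproximable ξ ∧ BadlyApproximable ξ' ∧
        ∀ ζ ∈ Z, 0 < D ξ ζ ∧ 0 < D ξ' ζ) := by
  refine ⟨sqrt_two_bad, fun Z A hZ hA hbad => dim_one_refl Z A hZ hA hbad, ?_⟩
  intro Z hZ hbad x
  have h := dim_one_refl Z {0, x} hZ (Set.toFinite _).countable hbad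
  obtain ⟨ξ, hξ⟩ : ({ξ : ℝ | ∀ a ∈ ({0, x} : Set ℝ), BadlyApproximable (ξ + a) ∧
      BadlyApproximable (a - ξ) ∧ ∀ ζ ∈ Z, 0 < D (ξ + a) ζ ∧ 0 < D (a - ξ) ζ}).Nonempty := by
    by_contra hne
    rw [Set.not_nonempty_iff_eq_empty] at hne
    rw [hne, dimH_empty] at h
    exact zero_ne_one h
  have h0 := hξ 0 (Or.inl rfl)
  have h1 := hξ x (Or.inr rfl)
  rw [add_zero] at h0
  exact ⟨ξ, x - ξ, by ring, h0.1, h1.2.1, fun ζ hζ => ⟨(h0.2.2 ζ hζ).1, (h1.2.2 ζ hζ).2⟩⟩

end Pool.Agent.Results.MP_294a04_nt.FullDimension
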